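import Mathlib
import Pool.Agent.H476R3.Diag
import Pool.Agent.H476R3.DiagCode3

set_option autoImplicit false

/-!
The triviality problem for diagram groups is undecidable.
-/

namespace Pool.Agent.Results.MP_6c430b_al.Undecidable

open Pool.Agent.H476R3.Diag

/-- An input: the size `k` of the alphabet `{0, ..., k-1}`, the finite list of the relations
`u = v` (as pairs of words), and a word `w`. -/
abbrev Input : Type := ℕ × List (List ℕ × List ℕ) × List ℕ

/-- The input is a finite semigroup presentation together with a nonempty word: the two sides of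
each relation are nonempty words over `{0, ..., k-1}`, and so is `w`. -/
def WellFormed (I : Input) : Prop :=
  (∀ r ∈ I.2.1, r.1 ≠ [] ∧ r.2 ≠ [] ∧ (∀ x ∈ r.1, x < I.1) ∧ (∀ x ∈ r.2, x < I.1)) ∧
    I.2.2 ≠ [] ∧ ∀ x ∈ I.2.2, x < I.1

/-- **The triviality problem for diagram groups is undecidable.** There is no algorithm which, given
a finite semigroup presentation `P = ⟨0, ..., k-1 | R⟩` and a nonempty word `w`, decides whether the
diagram group `D(P, w)` is nontrivial. -/
theorem result : ¬ ∃ f : Input → Bool, Computable f ∧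
    ∀ I : Input, WellFormed I → (f I = true ↔ Nontrivial (DiagramGroup {r | r ∈ I.2.1} I.2.2)) := by
  classical
  rintro ⟨f, hf, hfI⟩
  obtain ⟨Q, hQ, M, q0, Nf, -, hN, hund⟩ := Pool.Agent.Helper599.Source.exists_sys
  have hfin := Pool.Agent.H476R3.DiagMach.sym_finite Q M.B
  obtain ⟨k, ⟨e⟩⟩ := Finite.exists_equiv_fin (Pool.Agent.H476R3.DiagMach.Sym Q M.B)
  let code : Pool.Agent.H476R3.DiagMach.Sym Q M.B → ℕ := fun s => (e s : ℕ)
  have hc : Function.Injective code := fun s t h => e.injective (Fin.ext h)
  have hk : ∀ s, code s < k := fun s => (e s).2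
  let F : List (List ℕ × List ℕ) := (Pool.Agent.H476R3.DiagMach.fixedSet_finite M q0 code).toFinset.toList
  have hF : ∀ ρ, ρ ∈ F ↔ ρ ∈ Pool.Agent.H476R3.DiagMach.fixedSet M q0 code := by
    intro ρ
    simp [F]
  let I : ℕ → Input := fun n =>
    (k, Pool.Agent.H476R3.DiagMach.inp M q0 code (Nf n) :: F, [code .X, code .pct])
  have hIw : ∀ n, WellFormed (I n) := by
    intro n
    refine ⟨?_, by simp [I], ?_⟩
    · intro r hr
      have hr' : r ∈ Pool.Agent.H476R3.DiagMach.rels M q0 (Nf n) code := by
        rw [← Pool.Agent.H476R3.DiagMach.rels_eq M q0 code (Nf n) F hF]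
        exact hr
      obtain ⟨s, y, w, h, rfl⟩ := hr'
      refine ⟨?_, ?_, ?_, ?_⟩
      · unfold Pool.Agent.H476R3.DiagMach.lhs
        split_ifs <;> simp
      · intro h0
        have h1 := (Pool.Agent.H476R3.DiagMach.δ_act (Nf n) s y w h).2.2
        have h2 : w = [] := by simpa using h0
        rw [h2] at h1
        simp at h1
      · intro x hx
        obtain ⟨t, -, rfl⟩ := List.mem_map.1 hx
        exact hk t
      · intro x hx
        obtain ⟨t, -, rfl⟩ := List.mem_map.1 hx
        exact hk t
    · intro x hx
      simp only [I, List.mem_cons, List.not_mem_nil, or_false] at hx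
      rcases hx with rfl | rfl
      · exact hk _
      · exact hk _
  have hIc : Computable I := by
    have h1 : Computable (fun n => Pool.Agent.H476R3.DiagMach.inp M q0 code (Nf n)) := (Pool.Agent.H476R3.DiagMach.inp_primrec M q0 code).to_comp.comp hN
    have h2 : Computable (fun n => Pool.Agent.H476R3.DiagMach.inp M q0 code (Nf n) :: F) :=
      Computable.list_cons.comp h1 (Computable.const F)
    exact Computable.pair (Computable.const k) (Computable.pair h2 (Computable.const _))
  apply hund
  rw [ComputablePred.computable_iff]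
  refine ⟨fun n => f (I n), hf.comp hIc, ?_⟩
  funext n
  apply propext
  rw [hfI (I n) (hIw n)]
  have h1 : {r | r ∈ (I n).2.1} = Pool.Agent.H476R3.DiagMach.rels M q0 (Nf n) code :=
    Pool.Agent.H476R3.DiagMach.rels_eq M q0 code (Nf n) F hF
  rw [h1]
  exact (Pool.Agent.H476R3.DiagMach.nontrivial_iff (N := Nf n) hc).symm

end Pool.Agent.Results.MP_6c430b_al.Undecidable
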